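import Pool.Agent.H26.ZQ.Defs

/-!
# Module UNI of the board zq_modules

The square integral of the negative part of `log |f|` over the curves `u ↦ zz c δ u` is bounded
uniformly in `δ`.
-/

set_option autoImplicit false

open MeasureTheory Set Filter Topology Metric

namespace Pool.Agent.H89.ZQ

open Pool.Agent.H26.ZQ Pool.Agent.H26.ML

lemma zx_pos {c δ : ℝ} (hc : 0 < c) (hδ : 0 < δ) (u : ℝ) : 0 < zx c δ u := by
  unfold zx
  positivity

lemma zx_cont {c δ : ℝ} (hc : 0 < c) : Continuous (zx c δ) := by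
  unfold zx
  refine Continuous.div (by fun_prop) (by fun_prop) fun u => ?_
  have : 0 < c ^ 2 + δ ^ 2 * u ^ 2 := by positivity
  exact this.ne'

lemma zy_cont {c δ : ℝ} (hc : 0 < c) : Continuous (zy c δ) := by
  unfold zy
  refine Continuous.div (by fun_prop) (by fun_prop) fun u => ?_
  have : 0 < c ^ 2 + δ ^ 2 * u ^ 2 := by positivity
  exact this.ne'

lemma zz_cont {c δ : ℝ} (hc : 0 < c) : Continuous (zz c δ) := by
  unfold zz
  exact (Complex.continuous_ofReal.comp (zx_cont hc)).add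
    ((Complex.continuous_ofReal.comp (zy_cont hc)).mul continuous_const)

lemma zz_re (c δ u : ℝ) : (zz c δ u).re = zx c δ u := by simp [zz]

lemma zz_im (c δ u : ℝ) : (zz c δ u).im = zy c δ u := by simp [zz]

lemma summable_aux : Summable fun n : ℤ => (2 + |(n : ℝ)|) ^ (-(3 / 2 : ℝ)) := by
  have h1 : Summable fun n : ℕ => (((n + 2 : ℕ) : ℝ)) ^ (-(3 / 2 : ℝ)) :=
    (summable_nat_add_iff 2).2 (Real.summable_nat_rpow.2 (by norm_num))
  have h2 : Summable fun n : ℕ => (2 + (n : ℝ)) ^ (-(3 / 2 : ℝ)) := by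
    refine h1.congr fun n => ?_
    push_cast
    rw [add_comm]
  refine Summable.of_nat_of_neg ?_ ?_
  · refine h2.congr fun n => ?_
    simp
  · refine h2.congr fun n => ?_
    simp

lemma log_bound {x : ℝ} (hx : 0 ≤ x) :
    (1 + Real.log (2 + x)) ^ 2 / (1 + x ^ 2) ≤ 200 * (2 + x) ^ (-(3 / 2 : ℝ)) := by
  set y := 2 + x with hy
  have hy0 : 0 < y := by linarith
  have hy1 : 1 ≤ y := by linarith
  have h1 : Real.log y ≤ 4 * y ^ (1 / 4 : ℝ) := by
    have h3 := Real.log_le_rpow_div hy0.le (by norm_num : (0:ℝ) < 1 / 4)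
    linarith
  have h2 : 1 ≤ y ^ (1 / 4 : ℝ) := Real.one_le_rpow hy1 (by norm_num)
  have h3 : 0 ≤ Real.log y := Real.log_nonneg hy1
  have h4 : (1 + Real.log y) ^ 2 ≤ 25 * y ^ (1 / 2 : ℝ) := by
    have e : y ^ (1 / 2 : ℝ) = (y ^ (1 / 4 : ℝ)) ^ 2 := by
      rw [← Real.rpow_natCast, ← Real.rpow_mul hy0.le]
      norm_num
    rw [e]
    nlinarith
  have h5 : y ^ 2 ≤ 8 * (1 + x ^ 2) := by
    rw [hy]
    nlinarith [sq_nonneg (x - 2), sq_nonneg (x - 1), sq_nonneg x]
  have e2 : y ^ (-(3 / 2 : ℝ)) = y ^ (1 / 2 : ℝ) / y ^ 2 := by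
    rw [eq_div_iff (by positivity), ← Real.rpow_natCast, ← Real.rpow_add hy0]
    norm_num
  rw [e2, div_le_iff₀ (by positivity)]
  have h6 : 25 * y ^ (1 / 2 : ℝ) ≤ 200 * (y ^ (1 / 2 : ℝ) / y ^ 2) * (1 + x ^ 2) := by
    have h7 : 200 * (y ^ (1 / 2 : ℝ) / y ^ 2) * (1 + x ^ 2) =
        25 * y ^ (1 / 2 : ℝ) * ((8 * (1 + x ^ 2)) / y ^ 2) := by
      field_simp
      ring
    rw [h7]
    have h8 : 1 ≤ (8 * (1 + x ^ 2)) / y ^ 2 := by
      rw [one_le_div (by positivity)]
      exact h5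
    have h9 : 0 ≤ 25 * y ^ (1 / 2 : ℝ) := by positivity
    nlinarith
  exact h4.trans h6

lemma poi_loc {c u : ℝ} {n : ℤ} (hc : 0 < c) (hu : u ∈ Icc (n : ℝ) (n + 1)) :
    poi c u ≤ (3 / c + 2 * c) / (1 + (|(n : ℝ)|) ^ 2) := by
  obtain ⟨h1, h2⟩ := hu
  unfold poi
  rw [sq_abs, div_le_div_iff₀ (by positivity) (by positivity)]
  have h3 : (n : ℝ) ^ 2 ≤ 2 * u ^ 2 + 2 := by nlinarith [sq_nonneg ((n : ℝ) - 2 * u)]
  have h4 : c * (1 + (n : ℝ) ^ 2) ≤ c * (3 + 2 * u ^ 2) := by
    have : 1 + (n : ℝ) ^ 2 ≤ 3 + 2 * u ^ 2 := by linarith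
    exact mul_le_mul_of_nonneg_left this hc.le
  refine h4.trans ?_
  have h5 : (3 / c + 2 * c) * (c ^ 2 + u ^ 2) = c * (3 + 2 * u ^ 2) + (3 * u ^ 2 / c + 2 * c ^ 3) := by
    field_simp
    ring
  rw [h5]
  have : 0 ≤ 3 * u ^ 2 / c + 2 * c ^ 3 := by positivity
  linarith

theorem pf_uni (hLB : T_LB) (hSEP : T_SEP) (hSQ : T_SQ) : T_UNI := by
  intro E σ c k f hE hσ hσc hf
  have hc : 0 < c := hσ.trans hσc
  obtain ⟨δ₁, hδ₁, hδ₁', hsep⟩ := hSEP c σ hσ hσc
  obtain ⟨C, hC, hlb⟩ := hLB E σ k f hE hσ hf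
  obtain ⟨C₀, hC₀, hsq⟩ := hSQ
  set Q : ℝ := 3 / c + 2 * c with hQ
  have hQ0 : 0 < Q := by positivity
  set a : ℤ → ℝ := fun n => (Q * (C₀ * (4 * C ^ 2))) * (200 * (2 + |(n : ℝ)|) ^ (-(3 / 2 : ℝ))) with ha
  have ha0 : ∀ n, 0 ≤ a n := fun n => by
    have : 0 < 2 + |(n : ℝ)| := by positivity
    simp only [ha]
    positivity
  have hasum : Summable a := (summable_aux.mul_left 200).mul_left _
  refine ⟨Real.pi * (Real.log E) ^ 2 + ∑' n, a n, min δ₁ (σ / c), lt_min hδ₁ (by positivity), ?_⟩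
  intro δ hδ hδ'
  have hδ2 : δ ≤ δ₁ := hδ'.trans (min_le_left _ _)
  have hδ3 : c * δ ≤ σ := by
    have := hδ'.trans (min_le_right _ _)
    rwa [le_div_iff₀ hc, mul_comm] at this
  set S : Set ℝ := {u | zx c δ u ≤ σ} with hS
  have hSc : IsClosed S := isClosed_le (zx_cont hc) continuous_const
  set F : ℝ → ℝ := fun u => Real.log ‖f (zz c δ u)‖ with hF
  have hfc : Continuous fun u => f (zz c δ u) := by
    rw [continuous_iff_continuousAt]
    intro u
    have h1 : ContinuousAt f (zz c δ u) := by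
      refine (hf.an _ ?_).continuousAt
      show -(1 / 4) ≤ (zz c δ u).re
      rw [zz_re]
      have := zx_pos hc hδ u
      linarith
    exact ContinuousAt.comp h1 (zz_cont hc).continuousAt
  have hFm : Measurable F := Real.measurable_log.comp hfc.norm.measurable
  have h0S : (0 : ℝ) ∈ S := by
    show zx c δ 0 ≤ σ
    have : zx c δ 0 = c * δ := by
      unfold zx
      field_simp
      ring
    rw [this]
    exact hδ3
  have hzy0 : zy c δ 0 = 0 := by simp [zy]
  have hlogE : 0 ≤ Real.log E := Real.log_nonneg hE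
  -- outside `S`
  have hout : ∀ u, u ∉ S → (max (-F u) 0) ^ 2 ≤ (Real.log E) ^ 2 := by
    intro u hu
    have h1 : σ ≤ (zz c δ u).re := by
      rw [zz_re]
      exact (not_le.1 hu).le
    have h2 := hf.far _ h1
    have hpos : 0 < ‖f (zz c δ u)‖ := by
      by_contra hcon
      have : ‖f (zz c δ u)‖ = 0 := le_antisymm (not_lt.1 hcon) (norm_nonneg _)
      rw [this] at h2
      norm_num at h2
    have h3 : -F u ≤ Real.log E := by
      have h4 := Real.log_le_log one_pos h2
      rw [Real.log_one, Real.log_mul (by positivity) hpos.ne'] at h4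
      simp only [hF]
      linarith
    have h5 : max (-F u) 0 ≤ Real.log E := max_le h3 hlogE
    exact pow_le_pow_left₀ (le_max_right _ _) h5 2
  -- inside `S`
  have hin : ∀ n : ℤ, ∫⁻ u in S ∩ Icc (n : ℝ) (n + 1),
      ENNReal.ofReal (poi c u * (max (-F u) 0) ^ 2) ≤ ENNReal.ofReal (a n) := by
    intro n
    rcases (S ∩ Icc (n : ℝ) (n + 1)).eq_empty_or_nonempty with hem | ⟨u₀, hu₀, hu₀'⟩
    · rw [hem]
      simp
    · have hy0 : |zy c δ u₀| ≤ |(n : ℝ)| + 1 := by
        have h1 := (hsep δ u₀ 0 hδ hδ2 hu₀ h0S).2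
        rw [hzy0, sub_zero, sub_zero] at h1
        refine h1.trans ?_
        obtain ⟨h2, h3⟩ := hu₀'
        rw [abs_le]
        constructor
        · have := neg_abs_le (n : ℝ)
          linarith
        · have := le_abs_self (n : ℝ)
          linarith
      obtain ⟨N, ζ, hN, hbd⟩ := hlb (zy c δ u₀)
      set L : ℝ := 1 + Real.log (1 + |zy c δ u₀|) with hL
      have hL0 : 0 ≤ L := by
        have : 0 ≤ Real.log (1 + |zy c δ u₀|) :=
          Real.log_nonneg (by have := abs_nonneg (zy c δ u₀); linarith)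
        linarith
      have hL1 : L ≤ 1 + Real.log (2 + |(n : ℝ)|) := by
        have : Real.log (1 + |zy c δ u₀|) ≤ Real.log (2 + |(n : ℝ)|) :=
          Real.log_le_log (by positivity) (by linarith)
        linarith
      have h1 := hsq (n : ℝ) (C * L) N ζ (zz c δ) F S (by positivity) (zz_cont hc) hSc hFm
        (by
          intro u hu v hv
          rw [zz_im, zz_im]
          exact (hsep δ u v hδ hδ2 hu.1 hv.1).1)
        (by
          intro u hu hFu
          refine hbd (zz c δ u) ?_ ?_ ?_ ?_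
          · rw [zz_re]
            exact (zx_pos hc hδ u).le
          · rw [zz_re]
            exact hu.1
          · rw [zz_im]
            refine (hsep δ u u₀ hδ hδ2 hu.1 hu₀).2.trans ?_
            obtain ⟨h2, h3⟩ := hu.2
            obtain ⟨h4, h5⟩ := hu₀'
            rw [abs_le]
            constructor <;> linarith
          · intro h0
            simp only [hF] at hFu
            rw [h0] at hFu
            simp at hFu)
      have hm : MeasurableSet (S ∩ Icc (n : ℝ) (n + 1)) := hSc.measurableSet.inter measurableSet_Icc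
      have hP0 : 0 ≤ Q / (1 + (|(n : ℝ)|) ^ 2) := by positivity
      calc ∫⁻ u in S ∩ Icc (n : ℝ) (n + 1), ENNReal.ofReal (poi c u * (max (-F u) 0) ^ 2)
          ≤ ∫⁻ u in S ∩ Icc (n : ℝ) (n + 1), ENNReal.ofReal (Q / (1 + (|(n : ℝ)|) ^ 2)) *
              ENNReal.ofReal ((max (-F u) 0) ^ 2) := by
            refine setLIntegral_mono' hm fun u hu => ?_
            rw [← ENNReal.ofReal_mul hP0]
            exact ENNReal.ofReal_le_ofReal
              (mul_le_mul_of_nonneg_right (poi_loc hc hu.2) (sq_nonneg _))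
        _ = ENNReal.ofReal (Q / (1 + (|(n : ℝ)|) ^ 2)) *
              ∫⁻ u in S ∩ Icc (n : ℝ) (n + 1), ENNReal.ofReal ((max (-F u) 0) ^ 2) := by
            rw [lintegral_const_mul' _ _ ENNReal.ofReal_ne_top]
        _ ≤ ENNReal.ofReal (Q / (1 + (|(n : ℝ)|) ^ 2)) * ENNReal.ofReal (C₀ * (C * L + N) ^ 2) := by
            gcongr
        _ = ENNReal.ofReal (Q / (1 + (|(n : ℝ)|) ^ 2) * (C₀ * (C * L + N) ^ 2)) := by
            rw [ENNReal.ofReal_mul hP0]
        _ ≤ ENNReal.ofReal (a n) := by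
            apply ENNReal.ofReal_le_ofReal
            have h2 : (C * L + N) ^ 2 ≤ 4 * C ^ 2 * (1 + Real.log (2 + |(n : ℝ)|)) ^ 2 := by
              have h3 : C * L + N ≤ 2 * C * (1 + Real.log (2 + |(n : ℝ)|)) := by
                have h4 : C * L ≤ C * (1 + Real.log (2 + |(n : ℝ)|)) :=
                  mul_le_mul_of_nonneg_left hL1 hC.le
                linarith
              have h5 : 0 ≤ C * L + N := by positivity
              calc (C * L + N) ^ 2 ≤ (2 * C * (1 + Real.log (2 + |(n : ℝ)|))) ^ 2 :=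
                    pow_le_pow_left₀ h5 h3 2
                _ = _ := by ring
            calc Q / (1 + (|(n : ℝ)|) ^ 2) * (C₀ * (C * L + N) ^ 2)
                ≤ Q / (1 + (|(n : ℝ)|) ^ 2) *
                    (C₀ * (4 * C ^ 2 * (1 + Real.log (2 + |(n : ℝ)|)) ^ 2)) := by
                  gcongr
              _ = (Q * (C₀ * (4 * C ^ 2))) *
                    ((1 + Real.log (2 + |(n : ℝ)|)) ^ 2 / (1 + (|(n : ℝ)|) ^ 2)) := by
                  field_simp
              _ ≤ a n := by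
                  simp only [ha]
                  exact mul_le_mul_of_nonneg_left (log_bound (abs_nonneg _)) (by positivity)
  -- assembly
  have hcov : S ⊆ ⋃ n : ℤ, S ∩ Icc (n : ℝ) (n + 1) := by
    intro u hu
    rw [mem_iUnion]
    exact ⟨⌊u⌋, hu, Int.floor_le u, (Int.lt_floor_add_one u).le⟩
  have hpm : Measurable fun u => ENNReal.ofReal (poi c u * (max (-F u) 0) ^ 2) := by
    have := (poi_continuous hc).measurable
    fun_prop
  rw [← lintegral_add_compl _ hSc.measurableSet]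
  have hA : ∫⁻ u in S, ENNReal.ofReal (poi c u * (max (-F u) 0) ^ 2) ≤
      ENNReal.ofReal (∑' n, a n) := by
    calc ∫⁻ u in S, ENNReal.ofReal (poi c u * (max (-F u) 0) ^ 2)
        ≤ ∫⁻ u in ⋃ n : ℤ, S ∩ Icc (n : ℝ) (n + 1),
            ENNReal.ofReal (poi c u * (max (-F u) 0) ^ 2) := lintegral_mono_set hcov
      _ ≤ ∑' n : ℤ, ∫⁻ u in S ∩ Icc (n : ℝ) (n + 1),
            ENNReal.ofReal (poi c u * (max (-F u) 0) ^ 2) := lintegral_iUnion_le _ _
      _ ≤ ∑' n : ℤ, ENNReal.ofReal (a n) := ENNReal.tsum_le_tsum hin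
      _ = ENNReal.ofReal (∑' n, a n) := (ENNReal.ofReal_tsum_of_nonneg ha0 hasum).symm
  have hB : ∫⁻ u in Sᶜ, ENNReal.ofReal (poi c u * (max (-F u) 0) ^ 2) ≤
      ENNReal.ofReal (Real.pi * (Real.log E) ^ 2) := by
    calc ∫⁻ u in Sᶜ, ENNReal.ofReal (poi c u * (max (-F u) 0) ^ 2)
        ≤ ∫⁻ u in Sᶜ, ENNReal.ofReal (poi c u * (Real.log E) ^ 2) := by
          refine setLIntegral_mono' hSc.measurableSet.compl fun u hu => ?_
          exact ENNReal.ofReal_le_ofReal
            (mul_le_mul_of_nonneg_left (hout u hu) (poi_pos hc u).le)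
      _ ≤ ∫⁻ u, ENNReal.ofReal (poi c u * (Real.log E) ^ 2) := setLIntegral_le_lintegral _ _
      _ = ENNReal.ofReal (∫ u, poi c u * (Real.log E) ^ 2) := by
          rw [ofReal_integral_eq_lintegral_ofReal ((poi_integrable hc).mul_const _)]
          exact Eventually.of_forall fun u => mul_nonneg (poi_pos hc u).le (sq_nonneg _)
      _ = ENNReal.ofReal (Real.pi * (Real.log E) ^ 2) := by
          rw [integral_mul_const, poi_integral hc]
  calc _ ≤ ENNReal.ofReal (∑' n, a n) + ENNReal.ofReal (Real.pi * (Real.log E) ^ 2) :=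
        add_le_add hA hB
    _ = ENNReal.ofReal (Real.pi * (Real.log E) ^ 2 + ∑' n, a n) := by
        rw [← ENNReal.ofReal_add (tsum_nonneg ha0) (by positivity), add_comm]

end Pool.Agent.H89.ZQ
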